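import Mathlib
import Pool.Agent.H242R3.ES.StmtsK
import Pool.Agent.H575R2.Farkas

/-! Project H242-ES, K5a: dual description at a vertex. -/

set_option autoImplicit false
set_option maxHeartbeats 4000000

open Finset
open scoped Classical

namespace Pool.Agent.H531R3.ESK5a

open Pool.Agent.H242R3.ES

/-- the Lorentz form as a functional -/
noncomputable def BL (x : LV 3) : LV 3 →ₗ[ℝ] ℝ where
  toFun y := B x y
  map_add' y z := by
    simp only [B, Pi.add_apply, mul_add, Finset.sum_add_distrib]; ring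
  map_smul' c y := by
    simp only [B, Pi.smul_apply, smul_eq_mul, RingHom.id_apply, mul_sub, Finset.mul_sum]
    congr 1
    · exact Finset.sum_congr rfl fun i _ => by ring
    · ring

theorem BL_apply (x y : LV 3) : BL x y = B x y := rfl

theorem B_comm (x y : LV 3) : B x y = B y x := by
  simp only [B, mul_comm]

theorem B_zero_of (x : LV 3) (h : ∀ y, B x y = 0) : x = 0 := by
  funext i
  cases i with
  | none =>
    have := h (Pi.single none 1)
    simp [B] at this
    simpa using this
  | some i =>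
    have := h (Pi.single (some i) 1)
    simp [B, Pi.single_apply] at this
    simpa using this

theorem facet_pos {ι : Type} [Fintype ι] (V : ι → LV 3) (hV : GQ 3 V) (N : Set ι → LV 3)
    (hN : NrmP V N) (x : LV 3) (hx : ∀ F, Fc V F → B (N F) x ≤ 0) (T : Set ι)
    (hT : Cov V T Set.univ) (l : LV 3 →ₗ[ℝ] ℝ) (hl0 : ∀ i ∈ (Set.univ : Set ι), 0 ≤ l (V i))
    (hlT : ∀ i ∈ (Set.univ : Set ι), (i ∈ T ↔ l (V i) = 0)) : 0 ≤ l x := by
  obtain ⟨hFT, -, hTss, hrk⟩ := hT
  have h4 : Module.finrank ℝ (LV 3) = 4 := by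
    simp
  have hfin : rk V Set.univ = 4 := by
    unfold rk
    rw [Set.image_univ, hV.span, finrank_top, h4]
  have hFc : Fc V T := ⟨hFT, by omega⟩
  have hNT := (hN T hFc).2
  obtain ⟨i0, -, hi0⟩ := Set.exists_of_ssubset hTss
  have hl : 0 < l (V i0) :=
    lt_of_le_of_ne (hl0 i0 (Set.mem_univ _)) (fun h => hi0 ((hlT i0 (Set.mem_univ _)).2 h.symm))
  have hm : B (V i0) (N T) < 0 :=
    lt_of_le_of_ne (hNT i0).1 (fun h => hi0 ((hNT i0).2.1 h))
  obtain ⟨c, hc⟩ : ∃ c, c = l (V i0) / (-(B (V i0) (N T))) := ⟨_, rfl⟩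
  have hcpos : 0 < c := by rw [hc]; exact div_pos hl (by linarith)
  have hceq : l (V i0) + c * B (V i0) (N T) = 0 := by
    have h0 : -(B (V i0) (N T)) ≠ 0 := by linarith
    have h9 : c * (-(B (V i0) (N T))) = l (V i0) := by rw [hc]; exact div_mul_cancel₀ _ h0
    linarith
  have hker : LinearMap.ker (l + c • BL (N T)) = ⊤ := by
    have hK : Submodule.span ℝ (V '' T) ≤ LinearMap.ker (l + c • BL (N T)) := by
      rw [Submodule.span_le]
      rintro _ ⟨i, hi, rfl⟩
      show l (V i) + c * B (N T) (V i) = 0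
      rw [(hlT i (Set.mem_univ _)).1 hi, B_comm, (hNT i).2.2 hi]
      ring
    have hVi0 : V i0 ∈ LinearMap.ker (l + c • BL (N T)) := by
      show l (V i0) + c * B (N T) (V i0) = 0
      rw [B_comm (N T)]
      exact hceq
    have hnot : V i0 ∉ Submodule.span ℝ (V '' T) := by
      intro hmem
      have hle : Submodule.span ℝ (V '' T) ≤ LinearMap.ker l := by
        rw [Submodule.span_le]
        rintro _ ⟨i, hi, rfl⟩
        exact (hlT i (Set.mem_univ _)).1 hi
      have h0 : l (V i0) = 0 := hle hmem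
      linarith
    have hlt : Submodule.span ℝ (V '' T) < LinearMap.ker (l + c • BL (N T)) :=
      lt_of_le_of_ne hK (fun h => hnot (by rw [h]; exact hVi0))
    have h5 := Submodule.finrank_lt_finrank_of_lt hlt
    have h3 : Module.finrank ℝ (Submodule.span ℝ (V '' T)) = 3 := hFc.2
    apply Submodule.eq_top_of_finrank_eq
    have h6 := Submodule.finrank_le (LinearMap.ker (l + c • BL (N T)))
    omega
  have hz : l x + c * B (N T) x = 0 := by
    have : x ∈ LinearMap.ker (l + c • BL (N T)) := by rw [hker]; exact Submodule.mem_top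
    exact this
  have h7 := hx T hFc
  have h8 : c * B (N T) x ≤ 0 := mul_nonpos_of_nonneg_of_nonpos hcpos.le h7
  linarith

theorem t : TaskK5a := by
  intro hE hH hG ι _ V hV N hN v y hyv hye
  obtain ⟨hEd, hSY, -⟩ := hE ι V hV
  have huniv : Face V Set.univ := ⟨0, fun i => by simp, fun i => by simp⟩
  have hempty : Face V ∅ := by
    obtain ⟨w, -, hw⟩ := hV.tw
    have hw' : ∀ i, BL w (V i) < 0 := fun i => by
      rw [BL_apply, B_comm]; exact hw i
    refine ⟨-(BL w), fun i => ?_, fun i => ?_⟩
    · rw [LinearMap.neg_apply]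
      have := hw' i
      linarith
    · rw [LinearMap.neg_apply]
      have := hw' i
      constructor
      · intro h; exact absurd h (Set.notMem_empty i)
      · intro h; linarith
  have h1 : ∀ k, k ≠ v → Face V {v, k} → B y (V k) ≤ 0 := by
    intro k hk hF
    have hed : Ed V {v, k} := (hEd _).2 ⟨v, k, hk.symm, rfl, hF⟩
    have h2 := hye _ hed (by simp)
    rw [hSY v k hk.symm] at h2
    have h3 : B y (V v + V k) = B y (V v) + B y (V k) := (BL y).map_add _ _
    linarith
  have h2 : ∀ i, B y (V i) ≤ 0 := by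
    intro i
    obtain ⟨s, a, ha0, ha, hVi⟩ := hG ι (LV 3) V hV.vert v Set.univ huniv (Set.mem_univ _) i
      (Set.mem_univ _)
    have e1 : B y (V i) = s * B y (V v) + ∑ k, a k * B y (V k) := by
      have e2 : BL y (V i) = BL y (s • V v + ∑ k, a k • V k) := congrArg _ hVi
      rw [map_add, map_smul, map_sum] at e2
      rw [← BL_apply, e2]
      congr 1
      exact Finset.sum_congr rfl fun k _ => by rw [map_smul]; rfl
    rw [e1, hyv, mul_zero, zero_add]
    refine Finset.sum_nonpos fun k _ => ?_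
    by_cases hk : a k = 0
    · rw [hk, zero_mul]
    · obtain ⟨-, hk1, hk2⟩ := ha k hk
      exact mul_nonpos_of_nonneg_of_nonpos (ha0 k) (h1 k hk1 hk2)
  have hfar : ∀ x : LV 3, (∀ F, Fc V F → B (N F) x ≤ 0) → B y x ≤ 0 := by
    intro x hx
    obtain ⟨a, ha0, -, hxa⟩ := hH ι (LV 3) V Set.univ huniv hempty ⟨v, Set.mem_univ _⟩ x
      (by rw [Set.image_univ, hV.span]; exact Submodule.mem_top)
      (fun T hT l hl0 hlT => facet_pos V hV N hN x hx T hT l hl0 hlT)
    have e1 : B y x = ∑ k, a k * B y (V k) := by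
      have e2 : BL y x = BL y (∑ k, a k • V k) := congrArg _ hxa
      rw [map_sum] at e2
      rw [← BL_apply, e2]
      exact Finset.sum_congr rfl fun k _ => by rw [map_smul]; rfl
    rw [e1]
    exact Finset.sum_nonpos fun k _ => mul_nonpos_of_nonneg_of_nonpos (ha0 k) (h2 k)
  obtain ⟨e⟩ : Nonempty (Set ι ≃ Fin (Fintype.card (Set ι))) := ⟨Fintype.equivFin (Set ι)⟩
  obtain ⟨w, hw0, hw⟩ := H575R2.farkas_lin (Fintype.card (Set ι))
    (fun j => if Fc V (e.symm j) then BL (N (e.symm j)) else 0) (BL y)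
    (fun x hx => hfar x (fun F hF => by
      have h3 := hx (e F)
      simp only [Equiv.symm_apply_apply] at h3
      rw [if_pos hF] at h3
      exact h3))
  have hexp : ∀ x, B y x = ∑ F : Set ι, (if Fc V F then w (e F) else 0) * B (N F) x := by
    intro x
    rw [← BL_apply, hw x, ← e.sum_comp]
    refine Finset.sum_congr rfl fun F _ => ?_
    simp only [Equiv.symm_apply_apply]
    split_ifs
    · rfl
    · simp
  refine ⟨fun F => if Fc V F then w (e F) else 0, ?_, ?_, ?_⟩
  · intro F
    dsimp only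
    split_ifs
    · exact hw0 _
    · exact le_rfl
  · intro F hF
    dsimp only at hF
    have hFc : Fc V F := by
      by_contra h
      exact hF (if_neg h)
    refine ⟨hFc, ?_⟩
    have h3 := hexp (V v)
    rw [hyv] at h3
    have h4 : ∀ G ∈ (Finset.univ : Finset (Set ι)),
        (if Fc V G then w (e G) else 0) * B (N G) (V v) ≤ 0 := by
      intro G _
      split_ifs with hG'
      · refine mul_nonpos_of_nonneg_of_nonpos (hw0 _) ?_
        rw [B_comm]
        exact ((hN G hG').2 v).1
      · simp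
    have h5 := (Finset.sum_eq_zero_iff_of_nonpos h4).1 h3.symm F (Finset.mem_univ _)
    rcases mul_eq_zero.1 h5 with h6 | h6
    · exact absurd h6 hF
    · rw [B_comm] at h6
      exact ((hN F hFc).2 v).2.1 h6
  · rw [← sub_eq_zero]
    apply B_zero_of
    intro x
    rw [B_comm, ← BL_apply, map_sub, map_sum, BL_apply, B_comm x y, hexp x, sub_eq_zero]
    refine Finset.sum_congr rfl fun F _ => ?_
    rw [map_smul, smul_eq_mul, BL_apply, B_comm x]

end Pool.Agent.H531R3.ESK5a
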