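import Pool.Agent.H242R3.ES.Stmts

/-! Project H242-ES, task L3. -/

set_option autoImplicit false
set_option maxHeartbeats 4000000

open MeasureTheory Finset
open scoped Classical

namespace Pool.Agent.H531R3.ESL3

open Pool.Agent.H242R3.ES

variable {ι : Type}

/-- the quadratic form -/
noncomputable def qf (r : Finset ι) (F : ι → ℝ) (x : r → ℝ) : ℝ :=
  ∑ i : r, ∑ k : r, x i * gm F i k * x k

lemma ex_eq (r : Finset ι) (F : ι → ℝ) (x : r → ℝ) : ex r F x = Real.exp (-Real.pi * qf r F x) := rfl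

lemma qf_pos {r : Finset ι} {F : ι → ℝ} (h : (GM r F).PosDef) (x : r → ℝ) (hx : x ≠ 0) :
    0 < qf r F x := by
  have h1 := h.dotProduct_mulVec_pos hx
  have h2 : star x ⬝ᵥ (GM r F).mulVec x = qf r F x := by
    simp only [dotProduct, Matrix.mulVec, Pi.star_apply, star_trivial, qf, GM, Finset.mul_sum, mul_assoc]
  rwa [h2] at h1

lemma qf_cont (r : Finset ι) (F : ι → ℝ) : Continuous (qf r F) := by
  unfold qf
  fun_prop

lemma qf_smul (r : Finset ι) (F : ι → ℝ) (a : ℝ) (x : r → ℝ) : qf r F (a • x) = a ^ 2 * qf r F x := by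
  unfold qf
  simp only [Finset.mul_sum, Pi.smul_apply, smul_eq_mul]
  refine Finset.sum_congr rfl fun i _ => Finset.sum_congr rfl fun k _ => ?_
  ring

lemma qf_lower {r : Finset ι} {F : ι → ℝ} (h : (GM r F).PosDef) :
    ∃ c : ℝ, 0 < c ∧ ∀ x : r → ℝ, c * ∑ i, x i ^ 2 ≤ qf r F x := by
  set K : Set (r → ℝ) := {x | ∑ i, x i ^ 2 = 1} with hK
  have hsq : ∀ (x : r → ℝ) (i : r), x i ^ 2 ≤ ∑ i, x i ^ 2 := fun x i =>
    Finset.single_le_sum (f := fun i => x i ^ 2) (fun i _ => sq_nonneg _) (Finset.mem_univ i)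
  have hKc : IsCompact K := by
    refine IsCompact.of_isClosed_subset (isCompact_Icc (a := fun _ : r => (-1 : ℝ)) (b := fun _ => 1)) ?_ ?_
    · exact isClosed_eq (by fun_prop) continuous_const
    · intro x hx
      have h1 : ∀ i, |x i| ≤ 1 := fun i => by
        rw [← sq_le_one_iff_abs_le_one]
        exact (hsq x i).trans (le_of_eq hx)
      exact ⟨fun i => (abs_le.1 (h1 i)).1, fun i => (abs_le.1 (h1 i)).2⟩
  have hzero : ∀ x : r → ℝ, ∑ i, x i ^ 2 = 0 → x = 0 := by
    intro x hx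
    funext i
    have h1 := hsq x i
    rw [hx] at h1
    exact pow_eq_zero_iff (two_ne_zero) |>.1 (le_antisymm h1 (sq_nonneg _))
  have hq0 : qf r F 0 = 0 := by simp [qf]
  have hnn : ∀ x : r → ℝ, 0 ≤ ∑ i, x i ^ 2 := fun x => Finset.sum_nonneg fun i _ => sq_nonneg _
  have hscale : ∀ x : r → ℝ, 0 < ∑ i, x i ^ 2 → ((Real.sqrt (∑ i, x i ^ 2))⁻¹ • x) ∈ K := by
    intro x hx
    show ∑ i, ((Real.sqrt (∑ i, x i ^ 2))⁻¹ • x) i ^ 2 = 1
    simp only [Pi.smul_apply, smul_eq_mul, mul_pow]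
    rw [← Finset.mul_sum, inv_pow, Real.sq_sqrt hx.le, inv_mul_cancel₀ hx.ne']
  rcases K.eq_empty_or_nonempty with hE | hne
  · refine ⟨1, one_pos, fun x => ?_⟩
    rcases (hnn x).eq_or_lt with h0 | h0
    · rw [hzero x h0.symm, hq0]; simp
    · exact absurd (hscale x h0) (by rw [hE]; exact Set.notMem_empty _)
  · obtain ⟨x0, hx0, hmin⟩ := hKc.exists_isMinOn hne (qf_cont r F).continuousOn
    have hx0' : x0 ≠ 0 := by
      rintro rfl
      have : (∑ i : r, ((0 : r → ℝ) i) ^ 2) = 1 := hx0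
      simp at this
    refine ⟨qf r F x0, qf_pos h x0 hx0', fun x => ?_⟩
    rcases (hnn x).eq_or_lt with h0 | h0
    · rw [hzero x h0.symm, hq0]; simp
    · have h1 := hmin (hscale x h0)
      simp only [Set.mem_ofPred_eq] at h1
      rw [qf_smul, inv_pow, Real.sq_sqrt h0.le] at h1
      rw [mul_comm]
      calc (∑ i, x i ^ 2) * qf r F x0 ≤ (∑ i, x i ^ 2) * ((∑ i, x i ^ 2)⁻¹ * qf r F x) :=
            mul_le_mul_of_nonneg_left h1 h0.le
        _ = qf r F x := by rw [← mul_assoc, mul_inv_cancel₀ h0.ne', one_mul]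

lemma ex_cont (r : Finset ι) (F : ι → ℝ) : Continuous (ex r F) := by
  have h1 := qf_cont r F
  have h2 : ex r F = fun x => Real.exp (-Real.pi * qf r F x) := rfl
  rw [h2]
  fun_prop

lemma integ {r : Finset ι} {F : ι → ℝ} (g : ι → ℝ) (h : (GM r F).PosDef) :
    Integrable (fun x : r → ℝ => (∑ i : r, g i * x i) * ex r F x) := by
  obtain ⟨c, hc, hq⟩ := qf_lower h
  set a : ℝ := Real.pi * c / 2 with ha
  have ha0 : 0 < a := by positivity
  have h1 : Integrable (fun x : r → ℝ => ∏ i : r, Real.exp (-a * x i ^ 2)) :=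
    Integrable.fintype_prod (f := fun (_ : r) (t : ℝ) => Real.exp (-a * t ^ 2))
      fun _ => integrable_exp_neg_mul_sq ha0
  refine Integrable.mono' (h1.const_mul ((∑ i : r, |g i|) * (1 + 1 / a))) ?_ (Filter.Eventually.of_forall fun x => ?_)
  · refine Continuous.aestronglyMeasurable ?_
    have := ex_cont r F
    fun_prop
  · have e1 : ∏ i : r, Real.exp (-a * x i ^ 2) = Real.exp (-a * ∑ i, x i ^ 2) := by
      rw [← Real.exp_sum, Finset.mul_sum]
    have e2 : ex r F x ≤ Real.exp (-(2 * a) * ∑ i, x i ^ 2) := by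
      rw [ex_eq]
      apply Real.exp_le_exp.2
      have := hq x
      have h3 : Real.pi * (c * ∑ i, x i ^ 2) ≤ Real.pi * qf r F x := mul_le_mul_of_nonneg_left this Real.pi_pos.le
      rw [ha]
      nlinarith
    have e3 : ∀ t : ℝ, |t| ≤ (1 + 1 / a) * Real.exp (a * t ^ 2) := by
      intro t
      have h3 := Real.add_one_le_exp (a * t ^ 2)
      have h4 : |t| ≤ 1 + t ^ 2 := by
        have : 0 ≤ (|t| - 1) ^ 2 := sq_nonneg _
        nlinarith [sq_abs t, abs_nonneg t]
      have h5 : (1 + 1 / a) * (a * t ^ 2 + 1) = 1 + t ^ 2 + (a * t ^ 2 + 1 / a) := by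
        field_simp
        ring
      have h6 : 0 ≤ a * t ^ 2 + 1 / a := by positivity
      calc |t| ≤ (1 + 1 / a) * (a * t ^ 2 + 1) := by rw [h5]; linarith
        _ ≤ _ := mul_le_mul_of_nonneg_left h3 (by positivity)
    have e4 : ∀ i : r, |x i| ≤ (1 + 1 / a) * Real.exp (a * ∑ i, x i ^ 2) := by
      intro i
      refine (e3 (x i)).trans ?_
      gcongr
      exact Finset.single_le_sum (f := fun i => x i ^ 2) (fun i _ => sq_nonneg _) (Finset.mem_univ i)
    have e5 : |∑ i : r, g i * x i| ≤ (∑ i : r, |g i|) * ((1 + 1 / a) * Real.exp (a * ∑ i, x i ^ 2)) := by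
      refine (Finset.abs_sum_le_sum_abs _ _).trans ?_
      rw [Finset.sum_mul]
      refine Finset.sum_le_sum fun i _ => ?_
      rw [abs_mul]
      exact mul_le_mul_of_nonneg_left (e4 i) (abs_nonneg _)
    rw [norm_mul, Real.norm_eq_abs, Real.norm_eq_abs, e1, abs_of_pos (show 0 < ex r F x from Real.exp_pos _)]
    calc |∑ i : r, g i * x i| * ex r F x ≤ ((∑ i : r, |g i|) * ((1 + 1 / a) * Real.exp (a * ∑ i, x i ^ 2))) *
          Real.exp (-(2 * a) * ∑ i, x i ^ 2) := by
          refine mul_le_mul e5 e2 (Real.exp_pos _).le ?_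
          positivity
      _ = (∑ i : r, |g i|) * (1 + 1 / a) * (Real.exp (a * ∑ i, x i ^ 2) * Real.exp (-(2 * a) * ∑ i, x i ^ 2)) := by ring
      _ = _ := by
        rw [← Real.exp_add]
        congr 2
        ring

lemma orth_meas (r : Finset ι) : MeasurableSet (orth r) := by
  have : orth r = Set.Ici (0 : r → ℝ) := by
    ext x; exact Iff.rfl
  rw [this]
  exact isClosed_Ici.measurableSet

lemma II_nonneg (r : Finset ι) (F g : ι → ℝ) (hg : ∀ i ∈ r, 0 ≤ g i) : 0 ≤ II r F g := by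
  refine setIntegral_nonneg (orth_meas r) fun x hx => ?_
  refine mul_nonneg (Finset.sum_nonneg fun i _ => mul_nonneg (hg i i.2) (hx i)) (Real.exp_pos _).le

lemma II_pos (r : Finset ι) (F g : ι → ℝ) (hg : ∀ i ∈ r, 0 ≤ g i) (h : (GM r F).PosDef)
    (i0 : ι) (hi0 : i0 ∈ r) (hpos : 0 < g i0) : 0 < II r F g := by
  unfold II
  rw [setIntegral_pos_iff_support_of_nonneg_ae]
  · have hsub : {x : r → ℝ | ∀ i, 0 < x i} ⊆
        (Function.support (fun x : r → ℝ => (∑ i : r, g i * x i) * ex r F x)) ∩ orth r := by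
      intro x hx
      refine ⟨?_, fun i => (hx i).le⟩
      rw [Function.mem_support]
      refine mul_ne_zero (ne_of_gt ?_) (Real.exp_pos _).ne'
      exact Finset.sum_pos' (fun i _ => mul_nonneg (hg i i.2) (hx i).le)
        ⟨⟨i0, hi0⟩, Finset.mem_univ _, mul_pos hpos (hx _)⟩
    refine lt_of_lt_of_le ?_ (measure_mono hsub)
    refine IsOpen.measure_pos volume ?_ ⟨fun _ => 1, fun _ => one_pos⟩
    have : {x : r → ℝ | ∀ i, 0 < x i} = Set.pi Set.univ (fun _ => Set.Ioi (0 : ℝ)) := by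
      ext x; simp
    rw [this]
    exact isOpen_set_pi Set.finite_univ fun _ _ => isOpen_Ioi
  · refine (ae_restrict_iff' (orth_meas r)).2 (Filter.Eventually.of_forall fun x hx => ?_)
    exact mul_nonneg (Finset.sum_nonneg fun i _ => mul_nonneg (hg i i.2) (hx i)) (Real.exp_pos _).le
  · exact (integ g h).integrableOn

lemma gm_lin (F F' : ι → ℝ) (t : ℝ) (i k : ι) :
    gm (fun x => F x + t * (F' x - F x)) i k = (1 - t) * gm F i k + t * gm F' i k := by
  unfold gm
  split_ifs <;> ring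

lemma pd_lin {s : Finset ι} {F F' : ι → ℝ} (h : (GM s F).PosDef) (h' : (GM s F').PosDef) {t : ℝ}
    (h0 : 0 ≤ t) (h1 : t ≤ 1) : (GM s (fun x => F x + t * (F' x - F x))).PosDef := by
  have e : GM s (fun x => F x + t * (F' x - F x)) = (1 - t) • GM s F + t • GM s F' := by
    ext i k
    exact gm_lin F F' t i k
  rw [e]
  rcases h0.eq_or_lt with h2 | h2
  · subst h2
    simpa using h
  · exact Matrix.PosDef.posSemidef_add (h.posSemidef.smul (by linarith)) (h'.smul h2)

lemma conv_pos {X X' t : ℝ} (hX : 0 < X) (hX' : 0 < X') (h0 : 0 ≤ t) (h1 : t ≤ 1) :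
    0 < (1 - t) * X + t * X' := by
  rcases h0.eq_or_lt with h2 | h2
  · subst h2
    simpa using hX
  · have := mul_pos h2 hX'
    have := mul_nonneg (by linarith : 0 ≤ 1 - t) hX.le
    linarith

lemma adm_lin {m : ℕ} {S : Finset (Finset ι)} {F F' : ι → ℝ} (h : Adm m S F) (h' : Adm m S F') {t : ℝ}
    (h0 : 0 ≤ t) (h1 : t ≤ 1) : Adm m S (fun x => F x + t * (F' x - F x)) := by
  refine ⟨fun s hs => pd_lin (h.pd s hs) (h'.pd s hs) h0 h1, fun r j j' hj hj' hne hs hs' => ?_⟩
  have e1 := h.conv r j j' hj hj' hne hs hs'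
  have e2 := h'.conv r j j' hj hj' hne hs hs'
  have e3 := conv_pos (sub_pos.2 e1) (sub_pos.2 e2) h0 h1
  rw [← sub_pos]
  refine lt_of_lt_of_eq e3 ?_
  simp only [Finset.sum_add_distrib, ← Finset.mul_sum, Finset.sum_sub_distrib]
  ring

lemma L2' (hL2 : TaskL2) (r s s' : Finset ι) (j j' : ι) (F : ι → ℝ) (hr : r.Nonempty) (hj : j ∉ r)
    (hj' : j' ∉ r) (hne : j ≠ j') (hs : insert j r = s) (hs' : insert j' r = s') (hjs : j ∈ s)
    (hjs' : j' ∈ s') (h1 : (GM s F).PosDef) (h2 : (GM s' F).PosDef)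
    (h3 : F j + F j' < 2 / (r.card : ℝ) * (1 + ∑ i ∈ r, F i)) :
    0 < kap s F ⟨j, hjs⟩ + kap s' F ⟨j', hjs'⟩ := by
  subst hs
  subst hs'
  exact hL2 ι r j j' F hr hj hj' hne h1 h2 h3

lemma flag_pos (hL2 : TaskL2) {m : ℕ} (hm : 2 ≤ m) {S : Finset (Finset ι)} (hS : PM m S) (F g : ι → ℝ)
    (hA : Adm m S F) (hg : ∀ s ∈ S, ∀ k ∈ s, 0 ≤ g k) (s0 : Finset ι) (hs0 : s0 ∈ S) (k0 : ι)
    (hk0 : k0 ∈ s0) (h0 : 0 < g k0) : 0 < ∑ s ∈ S, ∑ j : s, kap s F j * II (s.erase j) F g := by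
  set P : Finset (Σ s : Finset ι, s) := S.sigma (fun s => Finset.univ) with hP
  set f : (Σ s : Finset ι, s) → ℝ := fun p => kap p.1 F p.2 * II (p.1.erase p.2) F g with hf
  set ρ : (Σ s : Finset ι, s) → Finset ι := fun p => p.1.erase p.2 with hρ
  have hsum : ∑ s ∈ S, ∑ j : s, kap s F j * II (s.erase j) F g = ∑ p ∈ P, f p := by
    rw [hP, Finset.sum_sigma]
  rw [hsum, ← Finset.sum_fiberwise_of_maps_to (s := P) (t := P.image ρ) (g := ρ)
    (fun p hp => Finset.mem_image_of_mem ρ hp) f]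
  -- the pairs
  have key : ∀ r ∈ P.image ρ, ∃ κ : ℝ, 0 < κ ∧ ∑ p ∈ P with ρ p = r, f p = κ * II r F g := by
    intro r hr
    obtain ⟨⟨s, j, hj⟩, hp, rfl⟩ := Finset.mem_image.1 hr
    have hsS : s ∈ S := (Finset.mem_sigma.1 hp).1
    obtain ⟨s', ⟨hs', hne, hsub⟩, huniq⟩ := hS.two s hsS j hj
    show ∃ κ : ℝ, 0 < κ ∧ ∑ p ∈ P with ρ p = s.erase j, f p = κ * II (s.erase j) F g
    set r := s.erase j with hr
    have hcs := hS.card s hsS
    have hcs' := hS.card s' hs'
    have hcr : r.card = m - 1 := by rw [hr, Finset.card_erase_of_mem hj, hcs]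
    have hs_eq : insert j r = s := Finset.insert_erase hj
    have hjr : j ∉ r := Finset.notMem_erase j s
    have hcd : (s' \ r).card = 1 := by
      rw [Finset.card_sdiff_of_subset hsub, hcr, hcs']; omega
    obtain ⟨j', hj'⟩ := Finset.card_eq_one.1 hcd
    have hj'm : j' ∈ s' \ r := by rw [hj']; exact Finset.mem_singleton_self _
    have hj's : j' ∈ s' := (Finset.mem_sdiff.1 hj'm).1
    have hj'r : j' ∉ r := (Finset.mem_sdiff.1 hj'm).2
    have hs'_eq : insert j' r = s' := by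
      rw [← Finset.union_sdiff_of_subset hsub, hj', Finset.union_comm]
      rfl
    have hjj : j ≠ j' := by
      rintro rfl
      exact hne (hs'_eq.symm.trans hs_eq)
    have hrne : r.Nonempty := by
      rw [← Finset.card_pos, hcr]; omega
    have hpos := L2' hL2 r s s' j j' F hrne hjr hj'r hjj hs_eq hs'_eq hj hj's (hA.pd s hsS) (hA.pd s' hs')
      (hA.conv r j j' hjr hj'r hjj (by rw [hs_eq]; exact hsS) (by rw [hs'_eq]; exact hs'))
    refine ⟨_, hpos, ?_⟩
    have hfib : P.filter (fun p => ρ p = r) = {(⟨s, ⟨j, hj⟩⟩ : Σ s : Finset ι, s), ⟨s', ⟨j', hj's⟩⟩} := by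
      ext ⟨t, i, hi⟩
      rw [Finset.mem_filter, Finset.mem_insert, Finset.mem_singleton]
      constructor
      · rintro ⟨ht, hti⟩
        have htS : t ∈ S := (Finset.mem_sigma.1 ht).1
        have hti' : t.erase i = r := hti
        have hir : i ∉ r := by rw [← hti']; exact Finset.notMem_erase i t
        by_cases hts : t = s
        · left
          subst hts
          have hij : i = j := by
            by_contra hij
            exact hir (Finset.mem_erase.2 ⟨hij, hi⟩)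
          subst hij
          rfl
        · right
          have hsubt : r ⊆ t := by rw [← hti']; exact Finset.erase_subset _ _
          have := huniq t ⟨htS, hts, hsubt⟩
          subst this
          have hij : i = j' := by
            have : i ∈ t \ r := Finset.mem_sdiff.2 ⟨hi, hir⟩
            rw [hj'] at this
            exact Finset.mem_singleton.1 this
          subst hij
          rfl
      · rintro (h | h)
        · rw [h]
          exact ⟨Finset.mem_sigma.2 ⟨hsS, Finset.mem_univ _⟩, rfl⟩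
        · rw [h]
          refine ⟨Finset.mem_sigma.2 ⟨hs', Finset.mem_univ _⟩, ?_⟩
          show s'.erase j' = r
          rw [← hs'_eq, Finset.erase_insert hj'r]
    rw [hfib, Finset.sum_pair]
    · have e2 : s'.erase j' = r := by rw [← hs'_eq, Finset.erase_insert hj'r]
      show kap s F ⟨j, hj⟩ * II (s.erase j) F g + kap s' F ⟨j', hj's⟩ * II (s'.erase j') F g = _
      rw [e2, ← hr]
      ring
    · intro h
      exact hne (congrArg Sigma.fst h).symm
  apply Finset.sum_pos'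
  · intro r hr
    obtain ⟨κ, hκ, e⟩ := key r hr
    rw [e]
    refine mul_nonneg hκ.le (II_nonneg r F g fun i hi => ?_)
    obtain ⟨⟨s, j⟩, hp, rfl⟩ := Finset.mem_image.1 hr
    exact hg s (Finset.mem_sigma.1 hp).1 i (Finset.mem_of_mem_erase hi)
  · have hc0 := hS.card s0 hs0
    obtain ⟨j, hj, hjk⟩ := Finset.exists_mem_ne (by omega : 1 < s0.card) k0
    refine ⟨s0.erase j, Finset.mem_image.2 ⟨⟨s0, ⟨j, hj⟩⟩, Finset.mem_sigma.2 ⟨hs0, Finset.mem_univ _⟩, rfl⟩, ?_⟩
    obtain ⟨κ, hκ, e⟩ := key (s0.erase j) (Finset.mem_image.2 ⟨⟨s0, ⟨j, hj⟩⟩,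
      Finset.mem_sigma.2 ⟨hs0, Finset.mem_univ _⟩, rfl⟩)
    rw [e]
    refine mul_pos hκ (II_pos _ F g (fun i hi => hg s0 hs0 i (Finset.mem_of_mem_erase hi)) ?_ k0
      (Finset.mem_erase.2 ⟨hjk.symm, hk0⟩) h0)
    have e2 : GM (s0.erase j) F = (GM s0 F).submatrix (fun i => ⟨i.1, Finset.mem_of_mem_erase i.2⟩)
      (fun i => ⟨i.1, Finset.mem_of_mem_erase i.2⟩) := rfl
    rw [e2]
    refine (hA.pd s0 hs0).submatrix ?_
    intro a b hab
    have hab' := congrArg (fun z : {x // x ∈ s0} => z.1) hab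
    exact Subtype.ext hab'

theorem t : TaskL3 := by
  intro hL1 hL2 ι _ m hm S hS F F' hF hF' hle hsum s0 hs0 k0 hk0
  by_contra hne
  have hlt : 0 < F' k0 - F k0 := by
    have := hle s0 hs0 k0 hk0
    exact sub_pos.2 (lt_of_le_of_ne this hne)
  set g : ι → ℝ := fun x => F' x - F x with hg
  have hD : ∀ t : ℝ, 0 ≤ t → t ≤ 1 → HasDerivAt (fun t : ℝ => ∑ s ∈ S, om s (fun i => F i + t * g i))
      (∑ s ∈ S, (-(1 / 2) * ∑ j : s, kap s (fun i => F i + t * g i) j *
        II (s.erase j) (fun i => F i + t * g i) g)) t := by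
    intro t0 h0 h1
    refine HasDerivAt.fun_sum fun s hs => ?_
    have h2 := hL1 ι s (fun i => F i + t0 * g i) g ((adm_lin hF hF' h0 h1).pd s hs)
    have h3 : HasDerivAt (fun t : ℝ => om s (fun i => F i + t0 * g i + (t - t0) * g i))
        (-(1 / 2) * ∑ j : s, kap s (fun i => F i + t0 * g i) j *
        II (s.erase j) (fun i => F i + t0 * g i) g) t0 := by
      refine HasDerivAt.comp_sub_const (f := fun t : ℝ => om s (fun i => F i + t0 * g i + t * g i)) t0 t0 ?_
      rw [sub_self]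
      exact h2
    refine h3.congr_of_eventuallyEq (Filter.Eventually.of_forall fun t => ?_)
    show om s _ = om s _
    congr 1
    funext i
    ring
  obtain ⟨c, hc, hslope⟩ := exists_hasDerivAt_eq_slope (fun t : ℝ => ∑ s ∈ S, om s (fun i => F i + t * g i))
    (fun t => ∑ s ∈ S, (-(1 / 2) * ∑ j : s, kap s (fun i => F i + t * g i) j *
        II (s.erase j) (fun i => F i + t * g i) g)) (zero_lt_one' ℝ)
    (fun t ht => (hD t ht.1 ht.2).continuousAt.continuousWithinAt) (fun t ht => hD t ht.1.le ht.2.le)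
  have e0 : ∑ s ∈ S, om s (fun i => F i + 0 * g i) = ∑ s ∈ S, om s F := by
    simp
  have e1 : ∑ s ∈ S, om s (fun i => F i + 1 * g i) = ∑ s ∈ S, om s F' := by
    simp [hg]
  simp only [e0, e1, hsum, sub_self, zero_div] at hslope
  have hpos := flag_pos hL2 hm hS (fun i => F i + c * g i) g (adm_lin hF hF' hc.1.le hc.2.le)
    (fun s hs k hk => sub_nonneg.2 (hle s hs k hk)) s0 hs0 k0 hk0 hlt
  rw [← Finset.mul_sum] at hslope
  linarith

end Pool.Agent.H531R3.ESL3
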